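import Pool.Agent.TH762.PP.Excl
import Pool.Agent.H660R2.NX.UnivSet

/-!
# Closure properties of `NP` and `NEXP`
-/

set_option autoImplicit false

namespace Pool.Agent.TH762.PP

open Pool.Agent.NPC Pool.Agent.H251R5.PQ Pool.Agent.H579R2.Spt
open Pool.Agent.H660R2.NX (InNEXP KSet)

/-- the verifier of a conjunction of positive questions -/
def vfy (qs : List Bool × List Bool → List (List Bool)) (g : List Bool × List Bool → Bool)
    (V : List Bool → List Bool) (chk : List Bool × List Bool → Bool)
    (p : List Bool × (List Bool × List (List Bool))) : Bool :=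
  (decide (p.2.1.length ≤ p.1.length) && g (p.1, p.2.1)) &&
    (decide (p.2.2.length = (qs (p.1, p.2.1)).length) &&
      ((qs (p.1, p.2.1)).zip p.2.2).all (fun t => chk t && decide (V (pairBits t.1 t.2) = [true])))

theorem vfy_poly {qs : List Bool × List Bool → List (List Bool)} {g : List Bool × List Bool → Bool}
    {V : List Bool → List Bool} {chk : List Bool × List Bool → Bool} (hq : Poly qs) (hg : Poly g)
    (hV : Poly V) (hchk : Poly chk) : Poly (vfy qs g V chk) := by
  have e1 : Poly (fun p : List Bool × (List Bool × List (List Bool)) => p.1) :=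
    NPC.Poly.fst NPC.Poly.id
  have e2 : Poly (fun p : List Bool × (List Bool × List (List Bool)) => p.2.1) :=
    NPC.Poly.fst (NPC.Poly.snd NPC.Poly.id)
  have e3 : Poly (fun p : List Bool × (List Bool × List (List Bool)) => p.2.2) :=
    NPC.Poly.snd (NPC.Poly.snd NPC.Poly.id)
  have e4 := hq.comp (NPC.Poly.pair e1 e2)
  unfold vfy
  refine NPC.Poly.and (NPC.Poly.and (NPC.Poly.decide_le (NPC.Poly.length e2) (NPC.Poly.length e1))
    (hg.comp (NPC.Poly.pair e1 e2))) (NPC.Poly.and (NPC.Poly.decide_eq (NPC.Poly.length e3)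
    (NPC.Poly.length e4)) (NPC.Poly.all
      (l := fun p : List Bool × (List Bool × List (List Bool)) => (qs (p.1, p.2.1)).zip p.2.2)
      (p := fun _ t => chk t && decide (V (pairBits t.1 t.2) = [true])) (NPC.Poly.zip e4 e3) ?_))
  have f : Poly (fun q : (List Bool × (List Bool × List (List Bool))) × (List Bool × List Bool) =>
      q.2) := NPC.Poly.snd NPC.Poly.id
  exact NPC.Poly.and (hchk.comp f) (NPC.Poly.decide_eq (hV.comp (Pool.Agent.H622R2.poly_pairBits
    (NPC.Poly.fst f) (NPC.Poly.snd f))) (NPC.Poly.const _))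

/-- **Certificates for conjunctions of positive questions.** -/
theorem cert_conj {B : Set (List Bool)} {V : List Bool → List Bool} (hV : PolyTime V) {β : ℕ → ℕ}
    (hβ : Monotone β) {chk : List Bool × List Bool → Bool} (hchk : Poly chk)
    (hc : ∀ y u, chk (y, u) = true ↔ u.length ≤ β y.length)
    (hB : ∀ y, y ∈ B ↔ ∃ u : List Bool, u.length ≤ β y.length ∧ V (pairBits y u) = [true])
    {qs : List Bool × List Bool → List (List Bool)} {g : List Bool × List Bool → Bool}
    (hq : Poly qs) (hg : Poly g) :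
    ∃ (V' : List Bool → List Bool) (Q : Polynomial ℕ), PolyTime V' ∧
      (∀ x v, V' (pairBits x v) = [true] → ∃ w : List Bool, w.length ≤ x.length ∧
        g (x, w) = true ∧ ∀ y ∈ qs (x, w), y ∈ B) ∧
      ∀ x, (∃ w : List Bool, w.length ≤ x.length ∧ g (x, w) = true ∧ ∀ y ∈ qs (x, w), y ∈ B) →
        ∃ v : List Bool, v.length ≤ 4 * x.length + 4 + Q.eval x.length *
          (4 * β (Q.eval x.length) + 2) ∧ V' (pairBits x v) = [true] := by
  classical
  obtain ⟨pq, hpq⟩ := hq.sz_le
  have hVp : Poly V := PIso.poly_iff.2 hV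
  set V' : List Bool → List Bool := fun z =>
    [(unbits (List Bool × List (List Bool)) (unpair z).2).elim false
      (fun c => vfy qs g V chk ((unpair z).1, c))] with hV'
  refine ⟨V', pq.comp (Polynomial.C 8 * Polynomial.X + 3), ?_, ?_, ?_⟩
  · refine polyTime_of_poly (g := fun z =>
      (unbits (List Bool × List (List Bool)) (unpair z).2).elim false
        (fun c => vfy qs g V chk ((unpair z).1, c))) ?_
    refine NPC.Poly.optElim
      (o := fun z : List Bool => unbits (List Bool × List (List Bool)) (unpair z).2)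
      (g := fun _ => false) (h := fun z c => vfy qs g V chk ((unpair z).1, c))
      (poly_unbits.comp (NPC.Poly.snd poly_unpair)) (NPC.Poly.const _) ?_
    exact (vfy_poly hq hg hVp hchk).comp (NPC.Poly.pair
      (NPC.Poly.fst (poly_unpair.comp (NPC.Poly.fst NPC.Poly.id))) (NPC.Poly.snd NPC.Poly.id))
  · intro x v hv
    rw [hV'] at hv
    simp only [unpair_pairBits, List.cons.injEq, and_true] at hv
    cases h : unbits (List Bool × List (List Bool)) v with
    | none => rw [h] at hv; simp at hv
    | some c =>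
      rw [h, Option.elim_some] at hv
      unfold vfy at hv
      simp only [Bool.and_eq_true, decide_eq_true_eq, List.all_eq_true] at hv
      obtain ⟨⟨h1, h2⟩, h3, h4⟩ := hv
      refine ⟨c.1, h1, h2, fun y hy => ?_⟩
      obtain ⟨i, hi, rfl⟩ := List.getElem_of_mem hy
      have hi' : i < c.2.length := by rw [h3]; exact hi
      have h5 := h4 ((qs (x, c.1))[i], c.2[i]) (by
        rw [List.mem_iff_getElem]
        refine ⟨i, by rw [List.length_zip]; omega, ?_⟩
        rw [List.getElem_zip])
      exact (hB _).2 ⟨c.2[i], (hc _ _).1 h5.1, h5.2⟩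
  · rintro x ⟨w, hw, hgw, hqB⟩
    have hu : ∀ y, ∃ u : List Bool, y ∈ B → u.length ≤ β y.length ∧ V (pairBits y u) = [true] := by
      intro y
      by_cases hy : y ∈ B
      · obtain ⟨u, hu⟩ := (hB y).1 hy
        exact ⟨u, fun _ => hu⟩
      · exact ⟨[], fun h => absurd h hy⟩
    choose u hu using hu
    have hsz : sz (qs (x, w)) ≤ (pq.comp (Polynomial.C 8 * Polynomial.X + 3)).eval x.length := by
      rw [Polynomial.eval_comp]
      refine (hpq _).trans (eval_mono pq ?_)
      have h1 := sz_listBool_le x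
      have h2 := sz_listBool_le w
      rw [sz_pair]
      simp only [Polynomial.eval_add, Polynomial.eval_mul, Polynomial.eval_C, Polynomial.eval_X,
        Polynomial.eval_ofNat]
      omega
    set S := (pq.comp (Polynomial.C 8 * Polynomial.X + 3)).eval x.length with hS
    refine ⟨bits ((w, (qs (x, w)).map u) : List Bool × List (List Bool)), ?_, ?_⟩
    · rw [bits_length, sz_pair]
      have h1 := sz_listBool_le w
      have h2 := sz_le_length_mul ((qs (x, w)).map u) (4 * β S + 1) (fun v hv => by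
        obtain ⟨y, hy, rfl⟩ := List.mem_map.1 hv
        have h3 := (hu y (hqB y hy)).1
        have h4 := sz_listBool_le (u y)
        have h5 : y.length ≤ S := by
          have h6 := length_lt_sz y
          have h7 := sz_le_of_mem hy
          omega
        have h8 := hβ h5
        omega)
      rw [List.length_map] at h2
      have h3 : (qs (x, w)).length ≤ S := by
        have := length_lt_sz (qs (x, w))
        omega
      have h4 : (qs (x, w)).length * (4 * β S + 1 + 1) ≤ S * (4 * β S + 2) :=
        Nat.mul_le_mul h3 le_rfl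
      omega
    · rw [hV']
      simp only [unpair_pairBits, unbits_bits, Option.elim_some, List.cons.injEq, and_true]
      unfold vfy
      simp only [Bool.and_eq_true, decide_eq_true_eq, List.all_eq_true]
      refine ⟨⟨hw, hgw⟩, by simp, fun t ht => ?_⟩
      rw [List.zip_map_right, List.mem_map] at ht
      obtain ⟨⟨a, b⟩, hab, rfl⟩ := ht
      obtain ⟨ha, hb⟩ : a = b ∧ a ∈ qs (x, w) := by
        have h1 : ∀ l : List (List Bool), (a, b) ∈ l.zip l → a = b ∧ a ∈ l := by
          intro l
          induction l with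
          | nil => intro h; simp at h
          | cons z l ih =>
            intro h
            rw [List.zip_cons_cons, List.mem_cons] at h
            rcases h with h | h
            · rw [Prod.mk.injEq] at h
              exact ⟨by rw [h.1, h.2], by rw [h.1]; exact List.mem_cons_self⟩
            · obtain ⟨h2, h3⟩ := ih h
              exact ⟨h2, List.mem_cons_of_mem _ h3⟩
        exact h1 _ hab
      subst ha
      obtain ⟨h1, h2⟩ := hu a (hqB a hb)
      exact ⟨(hc _ _).2 h1, h2⟩

theorem eval_monotone (p : Polynomial ℕ) : Monotone (fun n => p.eval n) := fun _ _ h =>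
  eval_mono p h

/-- `NP` is closed under positive conjunctive questions. -/
theorem pcl_np {B : Set (List Bool)} (hB : InNP B) : PCl InNP B := by
  obtain ⟨V, p, hV, hVB⟩ := hB
  intro qs g hq hg
  obtain ⟨V', Q, hV', h1, h2⟩ := cert_conj (β := fun n => p.eval n)
    (chk := fun t => decide (t.2.length ≤ p.eval t.1.length)) hV (eval_monotone p)
    (NPC.Poly.decide_le (NPC.Poly.length (NPC.Poly.snd NPC.Poly.id))
      ((UPoly.length (NPC.Poly.fst NPC.Poly.id)).eval p).toPoly) (fun y u => by simp) hVB hq hg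
  refine ⟨V', Polynomial.C 4 * Polynomial.X + 4 + Q * (Polynomial.C 4 * p.comp Q + 2), hV',
    fun x => ⟨fun hx => ?_, ?_⟩⟩
  · obtain ⟨v, hv1, hv2⟩ := h2 x hx
    refine ⟨v, ?_, hv2⟩
    simp only [Polynomial.eval_add, Polynomial.eval_mul, Polynomial.eval_C, Polynomial.eval_X,
      Polynomial.eval_ofNat, Polynomial.eval_comp]
    exact hv1
  · rintro ⟨v, _, hv⟩
    exact h1 x v hv

theorem le_pow_iff_size (l k : ℕ) : l ≤ 2 ^ k ↔ (l - 1).bits.length ≤ k := by
  rw [Nat.size_eq_bits_len, Nat.size_le]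
  have := Nat.one_le_two_pow (n := k)
  omega

/-- `NEXP` is closed under positive conjunctive questions. -/
theorem pcl_nexp {B : Set (List Bool)} (hB : InNEXP B) : PCl InNEXP B := by
  obtain ⟨V, p, hV, hVB⟩ := hB
  intro qs g hq hg
  obtain ⟨V', Q, hV', h1, h2⟩ := cert_conj (β := fun n => 2 ^ p.eval n)
    (chk := fun t => decide ((t.2.length - 1).bits.length ≤ p.eval t.1.length)) hV
    (fun a b h => Nat.pow_le_pow_right (by norm_num) (eval_mono p h))
    (NPC.Poly.decide_le (NPC.Poly.length (NPC.Poly.natBits (NPC.Poly.sub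
      (NPC.Poly.length (NPC.Poly.snd NPC.Poly.id)) (NPC.Poly.const 1))))
      ((UPoly.length (NPC.Poly.fst NPC.Poly.id)).eval p).toPoly)
    (fun y u => by
      rw [decide_eq_true_eq]
      exact (le_pow_iff_size _ _).symm) hVB hq hg
  refine ⟨V', Polynomial.X + Q + p.comp Q + 8, hV', fun x => ⟨fun hx => ?_, ?_⟩⟩
  · obtain ⟨v, hv1, hv2⟩ := h2 x hx
    refine ⟨v, hv1.trans ?_, hv2⟩
    simp only [Polynomial.eval_add, Polynomial.eval_X, Polynomial.eval_ofNat, Polynomial.eval_comp]
    set n := x.length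
    set q := Q.eval n
    set a := p.eval q
    have e1 : n < 2 ^ n := Nat.lt_two_pow_self
    have e2 : q < 2 ^ q := Nat.lt_two_pow_self
    have e3 : 1 ≤ 2 ^ n := Nat.one_le_two_pow
    have e4 : 1 ≤ 2 ^ q := Nat.one_le_two_pow
    have e5 : 1 ≤ 2 ^ a := Nat.one_le_two_pow
    have e6 : 2 ^ (n + q + a + 8) = 256 * (2 ^ n * (2 ^ q * 2 ^ a)) := by
      rw [pow_add, pow_add, pow_add]; ring
    rw [e6]
    have e7 : 2 ^ n ≤ 2 ^ n * (2 ^ q * 2 ^ a) := Nat.le_mul_of_pos_right _ (by positivity)
    have e8 : 2 ^ q * 2 ^ a ≤ 2 ^ n * (2 ^ q * 2 ^ a) := Nat.le_mul_of_pos_left _ (by positivity)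
    have e9 : q * (4 * 2 ^ a + 2) ≤ 2 ^ q * (6 * 2 ^ a) := Nat.mul_le_mul e2.le (by omega)
    have e10 : 2 ^ q * (6 * 2 ^ a) = 6 * (2 ^ q * 2 ^ a) := by ring
    omega
  · rintro ⟨v, _, hv⟩
    exact h1 x v hv

theorem exists_pow_bound' (p : Polynomial ℕ) : ∃ k, ∀ n, p.eval n ≤ (n + 2) ^ k := by
  obtain ⟨e, he⟩ := exists_pow_bound p
  exact ⟨e, fun n => (eval_mono p (Nat.le_add_right n 2)).trans (he (n + 2) (by omega))⟩

/-- The universal set is `NEXP`-hard. -/
theorem kset_hard {L : Set (List Bool)} (hL : InNEXP L) : Reduces L KSet := by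
  classical
  obtain ⟨V, p, hV, hVL⟩ := hL
  set V1 : List Bool → List Bool := fun z =>
    [decide (((unpair z).2.length - 1).bits.length ≤ p.eval (unpair z).1.length) &&
      decide (V z = [true])] with hV1
  have hV1p : PolyTime V1 := by
    refine polyTime_of_poly (g := fun z =>
      decide (((unpair z).2.length - 1).bits.length ≤ p.eval (unpair z).1.length) &&
      decide (V z = [true])) ?_
    exact NPC.Poly.and (NPC.Poly.decide_le (NPC.Poly.length (NPC.Poly.natBits (NPC.Poly.sub
      (NPC.Poly.length (NPC.Poly.snd poly_unpair)) (NPC.Poly.const 1))))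
      ((UPoly.length (NPC.Poly.fst poly_unpair)).eval p).toPoly)
      (NPC.Poly.decide_eq (PIso.poly_iff.2 hV) (NPC.Poly.const _))
  have hV1s : ∀ x w, V1 (pairBits x w) = [true] ↔
      w.length ≤ 2 ^ p.eval x.length ∧ V (pairBits x w) = [true] := by
    intro x w
    rw [hV1]
    simp only [unpair_pairBits, List.cons.injEq, and_true, Bool.and_eq_true, decide_eq_true_eq]
    rw [← le_pow_iff_size]
  obtain ⟨e, pc, he⟩ := Pool.Agent.H660R2.NX.U_complete hV1p
  obtain ⟨k, hk⟩ := exists_pow_bound' pc
  set mm : List Bool → ℕ := fun x => (x.length + p.eval x.length + 4) * k + p.eval x.length + 4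
    with hmm
  have hmmU : UPoly mm := by
    have h1 : UPoly (fun x : List Bool => x.length) := UPoly.length NPC.Poly.id
    have h2 : UPoly (fun x : List Bool => p.eval x.length) := h1.eval p
    exact ((((h1.add h2).add (UPoly.const 4)).mul (UPoly.const k)).add h2).add (UPoly.const 4)
  refine ⟨fun x => Pool.Agent.H660R2.NX.ins e x (mm x), ?_, fun x => ⟨fun hx => ?_, fun hx => ?_⟩⟩
  · refine PIso.poly_iff.1 ?_
    unfold Pool.Agent.H660R2.NX.ins
    exact bits_poly.comp (NPC.Poly.pair (NPC.Poly.const e) (NPC.Poly.pair NPC.Poly.id hmmU))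
  · obtain ⟨w, hw, hVw⟩ := (hVL x).1 hx
    refine Pool.Agent.H660R2.NX.ins_complete (V := V1) (p := pc) he
      ((hV1s x w).2 ⟨hw, hVw⟩) ?_
    have h1 := hk (pairBits x w).length
    have h2 : (pairBits x w).length = 2 * x.length + 1 + w.length := by
      exact Pool.Agent.W901.NU.pairBits_length x w
    set n := x.length
    set a := p.eval n
    have e1 : n < 2 ^ n := Nat.lt_two_pow_self
    have e3 : 1 ≤ 2 ^ n := Nat.one_le_two_pow
    have e5 : 1 ≤ 2 ^ a := Nat.one_le_two_pow
    have e6 : 2 ^ (n + a + 4) = 16 * (2 ^ n * 2 ^ a) := by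
      rw [pow_add, pow_add]; ring
    have e7 : 2 ^ n ≤ 2 ^ n * 2 ^ a := Nat.le_mul_of_pos_right _ (by positivity)
    have e8 : 2 ^ a ≤ 2 ^ n * 2 ^ a := Nat.le_mul_of_pos_left _ (by positivity)
    have h3 : (pairBits x w).length + 2 ≤ 2 ^ (n + a + 4) := by
      rw [h2, e6]
      omega
    have h4 : ((pairBits x w).length + 2) ^ k ≤ 2 ^ ((n + a + 4) * k) := by
      calc ((pairBits x w).length + 2) ^ k ≤ (2 ^ (n + a + 4)) ^ k := Nat.pow_le_pow_left h3 k
        _ = _ := by rw [← pow_mul]
    have h5 : 1 ≤ 2 ^ ((n + a + 4) * k) := Nat.one_le_two_pow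
    have h6 : 2 ^ ((n + a + 4) * k + a + 4) = 16 * (2 ^ ((n + a + 4) * k) * 2 ^ a) := by
      rw [pow_add, pow_add]; ring
    have h7 : 2 ^ ((n + a + 4) * k) ≤ 2 ^ ((n + a + 4) * k) * 2 ^ a :=
      Nat.le_mul_of_pos_right _ (by positivity)
    have h8 : 2 ^ a ≤ 2 ^ ((n + a + 4) * k) * 2 ^ a := Nat.le_mul_of_pos_left _ (by positivity)
    change 2 * w.length + 1 + pc.eval (pairBits x w).length ≤ 2 ^ ((n + a + 4) * k + a + 4)
    rw [h6]
    omega
  · obtain ⟨w, hw⟩ := Pool.Agent.H660R2.NX.ins_sound (V := V1) (p := pc) he hx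
    exact (hVL x).2 ⟨w, (hV1s x w).1 hw⟩

end Pool.Agent.TH762.PP
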