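import Pool.Agent.TH684.EX.Defs
import Pool.Agent.W901.NU.DefsA

/-!
# Partial information about the answers to polynomially many questions: polynomial-size circuits

`vec`, `Exclude`, `ExcludeCount`, `NotOnly` are those of `Pool.Agent.TH684.EX.Defs`.
Polynomial time is Mathlib's `Turing.TM2ComputableInPolyTime` (through `Pool.Agent.NPC.PolyTime`).
-/

set_option autoImplicit false

namespace Pool.Agent.TH762.PP

open Pool.Agent.NPC Pool.Agent.H251R5.PQ

/-- Some polynomial-time algorithm `X` with advice of polynomial length (equivalently, circuits of
polynomial size) solves the task `T` (which output numbers are right for which lists of strings) in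
the following weak sense: for every `n` there are a number `m ≤ n ^ b + b` and an advice string `θ` of
length at most `n ^ b + b` such that for all lists of `m` strings of length at most `n` the output of
`X` on the list and `θ` is right, and at most `n ^ b + b`. -/
def FeasiblePoly (T : List (List Bool) → ℕ → Prop) : Prop :=
  ∃ (X : List Bool → ℕ) (b : ℕ), PolyTime (fun z => bits (X z)) ∧
    ∀ n : ℕ, ∃ (m : ℕ) (θ : List Bool), m ≤ n ^ b + b ∧ θ.length ≤ n ^ b + b ∧
      ∀ qs : List (List Bool), qs.length = m → (∀ y ∈ qs, y.length ≤ n) →
        X (bits (qs, θ)) ≤ n ^ b + b ∧ T qs (X (bits (qs, θ)))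

/-- For some oracle `O` (an arbitrary set of strings), the number of members of `A` can be computed
by a polynomial-time algorithm with advice of polynomial length which asks at most `log₂ m` (rounded
down) questions to `O`, in the following weak sense: for every `n` there are a number `m` with
`1 ≤ m ≤ n ^ b + b` and an advice string `θ` of length at most `n ^ b + b` such that this works for
all lists of `m` strings of length at most `n`. The next question is computed by `q` from the input
(the list and `θ`) and the answers obtained so far, the result by `g` from the input and all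
answers. -/
def CountQuestionsPoly (A : Set (List Bool)) : Prop :=
  ∃ (O : Set (List Bool)) (q : List Bool → List Bool) (g : List Bool → ℕ) (b : ℕ),
    PolyTime q ∧ PolyTime (fun z => bits (g z)) ∧
    ∀ n : ℕ, ∃ (m : ℕ) (θ : List Bool), 1 ≤ m ∧ m ≤ n ^ b + b ∧ θ.length ≤ n ^ b + b ∧
      ∀ qs : List (List Bool), qs.length = m → (∀ y ∈ qs, y.length ≤ n) →
        g (pairBits (bits (qs, θ)) (adaptive O q (bits (qs, θ)) (Nat.log 2 m))) =
          (answers A qs).count true

/-- The class `C/poly`: advice strings of polynomial length which depend only on the length of the
input. -/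
def Slash (C : Set (List Bool) → Prop) (L : Set (List Bool)) : Prop :=
  ∃ (B : Set (List Bool)) (α : ℕ → List Bool) (p : Polynomial ℕ), C B ∧
    (∀ n, (α n).length ≤ p.eval n) ∧ ∀ x, x ∈ L ↔ pairBits x (α x.length) ∈ B

end Pool.Agent.TH762.PP
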