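import Pool.Agent.TH762.PP.Tab
import Pool.Agent.TH762.PP.Defs
import Pool.Agent.TH762.XC.EngP
import Pool.Agent.TH684.EX.Thm

/-!
# Exclusion of one vector by polynomial-size circuits
-/

set_option autoImplicit false

namespace Pool.Agent.TH762.PP

open Pool.Agent.NPC Pool.Agent.H251R5.PQ Pool.Agent.W901.AT Pool.Agent.H579R2.Spt
open Pool.Agent.W901.NU Pool.Agent.TH684.EX Pool.Agent.TH762.XC
open Pool.Agent.W901.FH (hx hx_poly)

/-- The class `K` contains all sets which are defined from `B` by a polynomially bounded existential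
quantifier, a polynomial-time predicate and a conjunction of positive questions. -/
def PCl (K : Set (List Bool) → Prop) (B : Set (List Bool)) : Prop :=
  ∀ (qs : List Bool × List Bool → List (List Bool)) (g : List Bool × List Bool → Bool),
    Poly qs → Poly g →
    K {x | ∃ w : List Bool, w.length ≤ x.length ∧ g (x, w) = true ∧ ∀ y ∈ qs (x, w), y ∈ B}

/-- the strings of the list at the positions with the bit `1` -/
def sel (zs : List (List Bool)) (w : List Bool) : List (List Bool) :=
  ((zs.zip w).filter (fun t => t.2)).map (fun t => t.1)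

theorem sel_spec (B : Set (List Bool)) : ∀ (zs : List (List Bool)) (w : List Bool),
    w.length = zs.length → (∀ y ∈ sel zs w, y ∈ B) →
      w.count true ≤ (answers B zs).count true ∧
        (w.count true = (answers B zs).count true → w = answers B zs) := by
  classical
  intro zs
  induction zs with
  | nil =>
    intro w hw _
    have : w = [] := List.length_eq_zero_iff.1 (by simpa using hw)
    subst this
    simp [answers]
  | cons z zs ih =>
    intro w hw h
    cases w with
    | nil => simp at hw
    | cons a w =>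
      have hw' : w.length = zs.length := by simpa using hw
      have h' : ∀ y ∈ sel zs w, y ∈ B := by
        intro y hy
        refine h y ?_
        unfold sel at hy ⊢
        rw [List.zip_cons_cons]
        cases a
        · rw [List.filter_cons_of_neg (by simp)]
          exact hy
        · rw [List.filter_cons_of_pos (by simp), List.map_cons]
          exact List.mem_cons_of_mem _ hy
      obtain ⟨h1, h2⟩ := ih w hw' h'
      have e : answers B (z :: zs) = decide (z ∈ B) :: answers B zs := by
        simp [answers]
      rw [e]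
      cases a
      · by_cases hz : z ∈ B
        · rw [decide_eq_true hz, List.count_cons_self, List.count_cons_of_ne (by simp)]
          exact ⟨by omega, fun h3 => by omega⟩
        · rw [decide_eq_false hz, List.count_cons_of_ne (by simp), List.count_cons_of_ne (by simp)]
          exact ⟨h1, fun h3 => by rw [h2 h3]⟩
      · have hz : z ∈ B := by
          refine h z ?_
          unfold sel
          rw [List.zip_cons_cons, List.filter_cons_of_pos (by simp), List.map_cons]
          exact List.mem_cons_self
        rw [decide_eq_true hz, List.count_cons_self, List.count_cons_self]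
        exact ⟨by omega, fun h3 => by rw [h2 (by omega)]⟩

theorem sel_answers (B : Set (List Bool)) : ∀ zs : List (List Bool),
    ∀ y ∈ sel zs (answers B zs), y ∈ B := by
  classical
  intro zs y hy
  unfold sel answers at hy
  obtain ⟨t, ht, rfl⟩ := List.mem_map.1 hy
  obtain ⟨ht1, ht2⟩ := List.mem_filter.1 ht
  rw [List.zip_map_right, List.mem_map] at ht1
  obtain ⟨⟨u, v⟩, huv, rfl⟩ := ht1
  have h1 : u = v := by
    clear ht2 hy ht
    induction zs with
    | nil => simp at huv
    | cons z zs ih =>
      rw [List.zip_cons_cons, List.mem_cons] at huv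
      rcases huv with h | h
      · rw [Prod.mk.injEq] at h
        rw [h.1, h.2]
      · exact ih h
  subst h1
  simpa using ht2

theorem sel_poly : Poly (fun p : List (List Bool) × List Bool => sel p.1 p.2) := by
  unfold sel
  refine NPC.Poly.map (l := fun p : List (List Bool) × List Bool => (p.1.zip p.2).filter
    (fun t => t.2)) (F := fun _ t => t.1) ?_ (NPC.Poly.fst (NPC.Poly.snd NPC.Poly.id))
  refine NPC.Poly.filter (l := fun p : List (List Bool) × List Bool => p.1.zip p.2)
    (p := fun _ t => t.2) ?_ (NPC.Poly.snd (NPC.Poly.snd NPC.Poly.id))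
  exact NPC.Poly.zip (NPC.Poly.fst NPC.Poly.id) (NPC.Poly.snd NPC.Poly.id)

/-- the label predicate of the vector of answers, for a given number of positive answers -/
def LabC (B : Set (List Bool)) (lam : ℕ × (ℕ × ℕ) → Bool) (q : Qu) : Prop :=
  ∃ w : List Bool, w.length = (dp q.1).1.length ∧ w.count true = (dp q.1).2 ∧
    (∀ y ∈ sel (dp q.1).1 w, y ∈ B) ∧
    lam (q.2.1, (hx q.2.2.1 q.2.2.2.1 q.2.2.2.2.2.1 (w.take q.2.2.2.2.1), q.2.2.2.2.2.2)) = true

theorem dp_length (x : List Bool) : (dp x).1.length ≤ x.length := by
  unfold dp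
  cases h : unbits (List (List Bool) × ℕ) x with
  | none => simp
  | some qs =>
    rw [Option.getD_some]
    have h1 := bits_of_unbits h
    rw [← h1, bits_length]
    have h2 := length_lt_sz qs.1
    have h3 : sz qs = sz qs.1 + sz qs.2 + 1 := sz_pair qs.1 qs.2
    omega

theorem labC_in {K : Set (List Bool) → Prop} {B : Set (List Bool)} (hK : PCl K B)
    {lam : ℕ × (ℕ × ℕ) → Bool} (hlam : Poly lam) : K (lang (LabC B lam)) := by
  have h1 : Poly (fun z : List Bool × List Bool =>
      (unbits Qu z.1).elim [] fun q => sel (dp q.1).1 z.2) := by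
    refine NPC.Poly.optElim (o := fun z : List Bool × List Bool => unbits Qu z.1)
      (g := fun _ => []) (h := fun z q => sel (dp q.1).1 z.2)
      (poly_unbits.comp (NPC.Poly.fst NPC.Poly.id)) (NPC.Poly.const _) ?_
    exact sel_poly.comp (NPC.Poly.pair (NPC.Poly.fst (dp_poly.comp (NPC.Poly.fst
      (NPC.Poly.snd NPC.Poly.id)))) (NPC.Poly.snd (NPC.Poly.fst NPC.Poly.id)))
  have h2 : Poly (fun z : List Bool × List Bool => (unbits Qu z.1).elim false fun q =>
      (decide (z.2.length = (dp q.1).1.length) && decide (z.2.count true = (dp q.1).2)) &&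
      lam (q.2.1, (hx q.2.2.1 q.2.2.2.1 q.2.2.2.2.2.1 (z.2.take q.2.2.2.2.1),
        q.2.2.2.2.2.2))) := by
    refine NPC.Poly.optElim (o := fun z : List Bool × List Bool => unbits Qu z.1)
      (g := fun _ => false) (h := fun z q =>
        (decide (z.2.length = (dp q.1).1.length) && decide (z.2.count true = (dp q.1).2)) &&
        lam (q.2.1, (hx q.2.2.1 q.2.2.2.1
        q.2.2.2.2.2.1 (z.2.take q.2.2.2.2.1), q.2.2.2.2.2.2)))
      (poly_unbits.comp (NPC.Poly.fst NPC.Poly.id)) (NPC.Poly.const _) ?_
    have b1 : Poly (fun z : (List Bool × List Bool) × Qu => z.1) := NPC.Poly.fst NPC.Poly.id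
    have b2 : Poly (fun z : (List Bool × List Bool) × Qu => z.2) := NPC.Poly.snd NPC.Poly.id
    have ew := NPC.Poly.snd b1
    have ed := dp_poly.comp (NPC.Poly.fst b2)
    have c1 := NPC.Poly.snd b2
    have em := NPC.Poly.fst c1
    have c2 := NPC.Poly.snd c1
    have eP := NPC.Poly.fst c2
    have c3 := NPC.Poly.snd c2
    have eF := NPC.Poly.fst c3
    have c4 := NPC.Poly.snd c3
    have ej := NPC.Poly.fst c4
    have c5 := NPC.Poly.snd c4
    have es := NPC.Poly.fst c5
    have ei := NPC.Poly.snd c5
    have hcnt : Poly (fun z : (List Bool × List Bool) × Qu => z.1.2.count true) := by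
      have h3 : Poly (fun z : (List Bool × List Bool) × Qu => (z.1.2.filter (fun a => a)).length) :=
        NPC.Poly.length (NPC.Poly.filter (l := fun z : (List Bool × List Bool) × Qu => z.1.2)
          (p := fun _ a => a) ew (NPC.Poly.snd NPC.Poly.id))
      refine h3.congr fun z => ?_
      rw [List.count_eq_length_filter]
      congr 2
      funext a
      cases a <;> rfl
    exact NPC.Poly.and (NPC.Poly.and (NPC.Poly.decide_eq (NPC.Poly.length ew)
      (NPC.Poly.length (NPC.Poly.fst ed))) (NPC.Poly.decide_eq hcnt (NPC.Poly.snd ed)))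
      (hlam.comp (NPC.Poly.pair em (NPC.Poly.pair (hx_poly eP eF es
      (take_poly' ew ej)) ei)))
  have h3 := hK _ _ h1 h2
  have e : lang (LabC B lam) = {x | ∃ w : List Bool, w.length ≤ x.length ∧
      ((unbits Qu x).elim false fun q =>
      (decide (w.length = (dp q.1).1.length) && decide (w.count true = (dp q.1).2)) &&
      lam (q.2.1, (hx q.2.2.1 q.2.2.2.1 q.2.2.2.2.2.1 (w.take q.2.2.2.2.1),
        q.2.2.2.2.2.2))) = true ∧
      ∀ y ∈ ((unbits Qu x).elim [] fun q => sel (dp q.1).1 w), y ∈ B} := by
    ext x
    rw [mem_lang_iff, Set.mem_ofPred_eq]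
    cases h : unbits Qu x with
    | none => simp
    | some q =>
      simp only [Option.some.injEq, exists_eq_left', Option.elim_some, Bool.and_eq_true,
        decide_eq_true_eq]
      unfold LabC
      constructor
      · rintro ⟨w, h1, h2, h3, h4⟩
        refine ⟨w, ?_, ⟨⟨h1, h2⟩, h4⟩, h3⟩
        rw [h1]
        refine (dp_length q.1).trans ?_
        have h5 := bits_of_unbits h
        rw [← h5, bits_length]
        have h6 := length_lt_sz q.1
        have h7 : sz q = sz q.1 + sz q.2 + 1 := sz_pair q.1 q.2
        omega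
      · rintro ⟨w, _, ⟨⟨h1, h2⟩, h4⟩, h3⟩
        exact ⟨w, h1, h2, h3, h4⟩
  rw [e]
  exact h3

/-- the labels of the vector of answers -/
theorem labC_iff (B : Set (List Bool)) (lam : ℕ × (ℕ × ℕ) → Bool) (zs : List (List Bool)) (k : ℕ)
    (hk : k = (answers B zs).count true) (m P F j s i : ℕ) :
    LabC B lam (bits (zs, k), (m, (P, (F, (j, (s, i)))))) ↔
      lam (m, (hx P F s ((answers B zs).take j), i)) = true := by
  unfold LabC
  simp only [dp_bits]
  constructor
  · rintro ⟨w, h1, h2, h3, h4⟩
    rw [(sel_spec B zs w h1 h3).2 (h2.trans hk)] at h4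
    exact h4
  · intro h
    exact ⟨answers B zs, by simp [answers], hk.symm, sel_answers B zs, h⟩

/-- **Exclusion by circuits gives circuits**, for every set `B` in the class. -/
theorem inPpoly_of_excl {K : Set (List Bool) → Prop} {A B L : Set (List Bool)} (hK : PCl K B)
    (hA : ∀ L', K L' → Reduces L' A) (hL : InP L) (h : FeasiblePoly (Exclude L A)) :
    InPpoly B := by
  classical
  obtain ⟨V, hV, hVL⟩ := hL
  obtain ⟨X, b, hX, hex⟩ := h
  have hlam : Poly (fun q : ℕ × (ℕ × ℕ) => decide (V (bits q) = [true])) :=
    NPC.Poly.decide_eq ((PIso.poly_iff.2 hV).comp bits_poly) (NPC.Poly.const [true])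
  set lam : ℕ × (ℕ × ℕ) → Bool := fun q => decide (V (bits q) = [true]) with hlamdef
  obtain ⟨f, hf, hfA⟩ := hA _ (labC_in hK hlam)
  have hqfp : Poly (fun q : Qu => f (bits q)) := (PIso.poly_iff.2 hf).comp bits_poly
  have hXp : Poly (fun q : List Bool × (List (List Bool) × ℕ) => X (bits (q.2.1, q.1))) :=
    (poly_of_polyTime hX).comp (bits_poly.comp (NPC.Poly.pair
      (NPC.Poly.fst (NPC.Poly.snd NPC.Poly.id)) (NPC.Poly.fst NPC.Poly.id)))
  obtain ⟨G, Ks, N, r, hG, hKs, hN, hr, hG2⟩ := engineP (τ := List Bool) (b := b)
    (X := fun θ k => X (bits (k.1, θ))) hXp hqfp Polynomial.X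
  choose m θ hm hθ hmex using hex
  obtain ⟨rN, hrN⟩ := hN.sz_le
  have hNle : ∀ a, N a ≤ rN.eval (sz a) := by
    intro a
    have h1 := hrN a
    have h2 := length_lt_sz (List.replicate (N a) ())
    rw [List.length_replicate] at h2
    omega
  set PN : Polynomial ℕ := rN.comp (Polynomial.C 40 * Polynomial.X + 20) with hPN
  set p0 : Polynomial ℕ := Polynomial.X ^ b + Polynomial.C b with hp0
  have hθ' : ∀ n, (θ n).length ≤ p0.eval n := fun n => by
    rw [hp0]
    simpa using hθ n
  refine inPpoly_of_tab (A := B) (τ := List (List Bool)) (D := 1) (c := 0)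
    (E := fun p => ((List.range (p.2.length + 1)).flatMap (fun k =>
      G (p.1.getD (N (bits (p.2, k))) [], bits (p.2, k)))).map (fun w => w.map some)) ?_
    (fun s => tabl θ (PN.eval s)) ((PN + 1) * (Polynomial.C 4 * p0.comp PN + 2) + 1)
    (fun s => ?_) le_rfl fun s z hz hsz _ => ?_
  · refine NPC.Poly.map (l := fun p : List (List Bool) × List (List Bool) =>
      (List.range (p.2.length + 1)).flatMap (fun k =>
      G (p.1.getD (N (bits (p.2, k))) [], bits (p.2, k)))) (F := fun _ w => w.map some) ?_ ?_
    · refine NPC.Poly.flatMap (l := fun p : List (List Bool) × List (List Bool) =>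
        List.range (p.2.length + 1)) (F := fun p k =>
          G (p.1.getD (N (bits (p.2, k))) [], bits (p.2, k))) ?_ ?_
      · exact ((UPoly.length (NPC.Poly.snd NPC.Poly.id)).add (UPoly.const 1)).range
      · have e1 : Poly (fun q : (List (List Bool) × List (List Bool)) × ℕ =>
            bits (q.1.2, q.2)) := bits_poly.comp (NPC.Poly.pair
            (NPC.Poly.snd (NPC.Poly.fst NPC.Poly.id)) (NPC.Poly.snd NPC.Poly.id))
        exact hG.comp (NPC.Poly.pair (NPC.Poly.getD (NPC.Poly.fst (NPC.Poly.fst NPC.Poly.id))
          (hN.toPoly.comp e1) (NPC.Poly.const [])) e1)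
    · exact NPC.Poly.map (l := fun q : (List (List Bool) × List (List Bool)) × List Bool => q.2)
        (F := fun _ a => some a) (NPC.Poly.snd NPC.Poly.id)
        (NPC.Poly.some (NPC.Poly.snd NPC.Poly.id))
  · have h1 := sz_tabl hθ' (PN.eval s)
    simp only [Polynomial.eval_add, Polynomial.eval_mul, Polynomial.eval_one, Polynomial.eval_C,
      Polynomial.eval_ofNat, Polynomial.eval_comp]
    exact h1
  · set k := (answers B z).count true with hk
    have hkz : k ≤ z.length := by
      have h1 := List.count_le_length (a := true) (l := answers B z)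
      rwa [show (answers B z).length = z.length by simp [answers]] at h1
    have hx : N (bits (z, k)) ≤ PN.eval s := by
      refine (hNle _).trans ?_
      rw [hPN, Polynomial.eval_comp]
      refine eval_mono rN ?_
      have h1 := sz_listBool_le (bits (z, k))
      have h2 := bits_length (z, k)
      have h3 : sz (z, k) = sz z + sz k + 1 := sz_pair z k
      have h4 := sz_nat_le k
      have h5 := NPC.Poly.size_le_self k
      have h6 := length_lt_sz z
      simp only [Polynomial.eval_add, Polynomial.eval_mul, Polynomial.eval_C, Polynomial.eval_X,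
        Polynomial.eval_ofNat]
      omega
    refine ⟨(answers B z).map some, List.mem_map.2 ⟨_, ?_, rfl⟩,
      good_of_beats (δ := 1 / 2) (by norm_num) B z hz _ (full_beats le_rfl B z hz)⟩
    refine List.mem_flatMap.2 ⟨k, List.mem_range.2 (Nat.lt_succ_of_le hkz), ?_⟩
    rw [tabl_getD θ hx]
    refine hG2 A lam _ (bits (z, k)) (answers B z) ?_ ?_ ?_
    · refine ⟨m (N (bits (z, k))), 0, hm _, Nat.zero_le _, fun qs' hqs' hlen _ => ?_⟩
      obtain ⟨h2, h3⟩ := hmex (N (bits (z, k))) qs' hqs' hlen
      refine ⟨h2, fun h4 => h3 ?_⟩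
      rw [h4, hqs']
      unfold vec
      refine List.map_congr_left fun i _ => ?_
      exact decide_eq_decide.2 (hVL _).symm
    · rw [Polynomial.eval_X, bits_length]
      have h1 := length_lt_sz z
      have h3 : sz (z, k) = sz z + sz k + 1 := sz_pair z k
      have h4 : (answers B z).length = z.length := by simp [answers]
      omega
    · intro m' P F j s' i
      rw [← hfA, bits_mem_lang]
      exact labC_iff B lam z k hk m' P F j s' i

end Pool.Agent.TH762.PP
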