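import Pool.Agent.TH762.PP.Cls

/-!
# The exclusion law for polynomial-size circuits
-/

set_option autoImplicit false

namespace Pool.Agent.TH762.PP

open Pool.Agent.NPC Pool.Agent.H251R5.PQ Pool.Agent.W901.AT Pool.Agent.H579R2.Spt
open Pool.Agent.W901.NU Pool.Agent.TH684.EX
open Pool.Agent.H660R2.NX (InNEXP KSet)

theorem exists_pow_add_bound' (p : Polynomial ℕ) : ∃ b, ∀ n, p.eval n ≤ n ^ b + b := by
  obtain ⟨e, he⟩ := exists_pow_bound p
  have h0 : 0 < 2 ^ e := by positivity
  refine ⟨e + 2 ^ e, fun n => ?_⟩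
  by_cases h : 2 ≤ n
  · have h1 := he n h
    have h2 : n ^ e ≤ n ^ (e + 2 ^ e) := Nat.pow_le_pow_right (by omega) (by omega)
    omega
  · have h1 := (eval_mono p (show n ≤ 2 by omega)).trans (he 2 le_rfl)
    omega

theorem pow_add_mono (n b c : ℕ) : n ^ b + b ≤ n ^ (b + c) + (b + c) := by
  rcases Nat.eq_zero_or_pos n with h0 | h0
  · subst h0
    rcases Nat.eq_zero_or_pos b with h2 | h2
    · subst h2
      rcases Nat.eq_zero_or_pos c with h3 | h3
      · subst h3
        simp
      · simp only [pow_zero, Nat.zero_add, Nat.add_zero]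
        rw [zero_pow h3.ne']
        omega
    · rw [zero_pow h2.ne', zero_pow (show b + c ≠ 0 by omega)]
      omega
  · have : n ^ b ≤ n ^ (b + c) := Nat.pow_le_pow_right h0 (by omega)
    omega

theorem FeasiblePoly.mono {T T' : List (List Bool) → ℕ → Prop} (h : FeasiblePoly T)
    (hT : ∀ qs l, T qs l → T' qs l) : FeasiblePoly T' := by
  obtain ⟨X, b, hX, h⟩ := h
  refine ⟨X, b, hX, fun n => ?_⟩
  obtain ⟨m, a, hm, ha, h1⟩ := h n
  exact ⟨m, a, hm, ha, fun qs hqs hlen =>
    ⟨(h1 qs hqs hlen).1, hT _ _ (h1 qs hqs hlen).2⟩⟩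

/-- Decoding of a list with a string. -/
def dq (z : List Bool) : List (List Bool) × List Bool :=
  (unbits (List (List Bool) × List Bool) z).getD ([], [])

theorem dq_poly : Poly dq := NPC.Poly.optGetD poly_unbits (NPC.Poly.const _)

theorem dq_bits (q : List (List Bool) × List Bool) : dq (bits q) = q := by
  unfold dq
  rw [unbits_bits, Option.getD_some]

/-- The decision for the first string of the list, with a coded table of advice strings. -/
def fstA (V : List Bool → List Bool) (z : List Bool) : Bool :=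
  decide (V (pairBits ((dq z).1.getD 0 []) ((lst (dq z).2).getD ((dq z).1.getD 0 []).length [])) =
    [true])
where
  /-- The strings of a coded list. -/
  lst (x : List Bool) : List (List Bool) := (unbits (List (List Bool)) x).getD []

theorem fstA_poly {V : List Bool → List Bool} (hV : Poly V) : Poly (fstA V) := by
  have h1 : Poly (fun z : List Bool => (dq z).1.getD 0 []) :=
    NPC.Poly.getD (NPC.Poly.fst dq_poly) (NPC.Poly.const 0) (NPC.Poly.const [])
  have h2 : Poly fstA.lst := NPC.Poly.optGetD (g := fun _ => []) poly_unbits (NPC.Poly.const _)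
  exact NPC.Poly.decide_eq (hV.comp (Pool.Agent.H622R2.poly_pairBits h1
    (NPC.Poly.getD (h2.comp (NPC.Poly.snd dq_poly)) (NPC.Poly.length h1) (NPC.Poly.const []))))
    (NPC.Poly.const _)

/-- Sets in `P/poly` are decided with tables. -/
theorem tables {A : Set (List Bool)} (hA : InPpoly A) :
    ∃ (V : List Bool → List Bool) (θ : ℕ → List Bool) (b : ℕ), Poly V ∧
      (∀ n, (θ n).length ≤ n ^ b + b) ∧ ∀ (n : ℕ) (qs : List (List Bool)),
        (qs.getD 0 []).length ≤ n →
        (fstA V (bits (qs, θ n)) = true ↔ qs.getD 0 [] ∈ A) := by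
  obtain ⟨V, α, p, hV, hα, hVA⟩ := hA
  obtain ⟨b, hb⟩ := exists_pow_add_bound' ((Polynomial.X + 1) * (Polynomial.C 4 * p + 2) + 1)
  refine ⟨V, fun n => bits (tabl α n), b, PIso.poly_iff.2 hV, fun n => ?_, fun n qs hqs => ?_⟩
  · rw [bits_length]
    refine (sz_tabl hα n).trans ((le_of_eq ?_).trans (hb n))
    simp only [Polynomial.eval_add, Polynomial.eval_mul, Polynomial.eval_C, Polynomial.eval_X,
      Polynomial.eval_one, Polynomial.eval_ofNat]
  · unfold fstA fstA.lst
    rw [dq_bits]
    simp only [unbits_bits, Option.getD_some]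
    rw [tabl_getD α hqs, decide_eq_true_eq]
    exact (hVA _).symm

theorem feasiblePoly_count {A : Set (List Bool)} (hA : InPpoly A) :
    FeasiblePoly (ExcludeCount A) := by
  classical
  obtain ⟨V, θ, b, hV, hθ, h⟩ := tables hA
  refine ⟨fun z => if fstA V z = true then 0 else 1, b + 1, polyTime_bits (NPC.Poly.ite
    (NPC.Poly.decide_bool (fstA_poly hV)) (NPC.Poly.const 0) (NPC.Poly.const 1)), fun n =>
    ⟨1, θ n, by omega, ?_, fun qs hqs hlen => ?_⟩⟩
  · exact (hθ n).trans (pow_add_mono n b 1)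
  obtain ⟨y, rfl⟩ := List.length_eq_one_iff.1 hqs
  have h1 := h n [y] (by simpa using hlen y (by simp))
  rw [List.getD_cons_zero] at h1
  beta_reduce
  by_cases h2 : y ∈ A
  · rw [if_pos (h1.2 h2)]
    exact ⟨by omega, by simp, by simp [answers, h2]⟩
  · rw [if_neg fun h3 => h2 (h1.1 h3)]
    exact ⟨by omega, by simp, by simp [answers, h2]⟩

theorem feasiblePoly_notOnly {A : Set (List Bool)} (hA : InPpoly A) :
    FeasiblePoly (NotOnly A) := by
  classical
  obtain ⟨V, θ, b, hV, hθ, h⟩ := tables hA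
  refine ⟨fun z => if fstA V z = true then 1 else 0, b + 2, polyTime_bits (NPC.Poly.ite
    (NPC.Poly.decide_bool (fstA_poly hV)) (NPC.Poly.const 1) (NPC.Poly.const 0)), fun n =>
    ⟨2, θ n, by omega, ?_, fun qs hqs hlen => ?_⟩⟩
  · exact (hθ n).trans (pow_add_mono n b 2)
  obtain ⟨y, y', rfl⟩ := List.length_eq_two.1 hqs
  have h1 := h n [y, y'] (by simpa using hlen y (by simp))
  rw [List.getD_cons_zero] at h1
  beta_reduce
  by_cases h2 : y ∈ A
  · rw [if_pos (h1.2 h2)]
    refine ⟨by omega, by simp, fun h3 => ?_⟩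
    have h4 := (h3 0 (by simp)).1 h2
    omega
  · rw [if_neg fun h3 => h2 (h1.1 h3)]
    refine ⟨by omega, by simp, fun h3 => h2 ?_⟩
    exact (h3 0 (by simp)).2 rfl

theorem questionsPoly_of_inPpoly {A : Set (List Bool)} (hA : InPpoly A) :
    CountQuestionsPoly A := by
  classical
  obtain ⟨V, θ, b, hV, hθ, h⟩ := tables hA
  refine ⟨∅, fun z => z, fun z => if fstA V (unpair z).1 = true then 1 else 0, b + 1,
    polyTime_id, polyTime_bits (NPC.Poly.ite (NPC.Poly.decide_bool ((fstA_poly hV).comp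
      (NPC.Poly.fst poly_unpair))) (NPC.Poly.const 1) (NPC.Poly.const 0)), fun n =>
    ⟨1, θ n, le_rfl, by omega, ?_, fun qs hqs hlen => ?_⟩⟩
  · exact (hθ n).trans (pow_add_mono n b 1)
  obtain ⟨y, rfl⟩ := List.length_eq_one_iff.1 hqs
  have h1 := h n [y] (by simpa using hlen y (by simp))
  rw [List.getD_cons_zero] at h1
  simp only [unpair_pairBits]
  by_cases h2 : y ∈ A
  · rw [if_pos (h1.2 h2)]
    simp [answers, h2]
  · rw [if_neg fun h3 => h2 (h1.1 h3)]
    simp [answers, h2]

/-! ### From few questions to exclusion -/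

/-- All possible answers to `log₂ m` questions. -/
def enqA (z : List Bool) : List (List Bool) := enuStep^[Nat.log 2 (dq z).1.length] [[]]

theorem enqA_poly : Poly enqA := by
  obtain ⟨r, hr⟩ := dq_poly.sz_le
  have h1 := NPC.Poly.iterLen (l := fun z : List Bool => (dq z).1.length.bits.tail)
    (s := fun _ => ([[]] : List (List Bool))) (F := fun _ s => enuStep s)
    (NPC.Poly.tail (NPC.Poly.natBits (NPC.Poly.length (NPC.Poly.fst dq_poly))))
    (NPC.Poly.const _) (enu_poly_step.comp (NPC.Poly.snd NPC.Poly.id))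
    (r * (Polynomial.C 4 * r + 2) + 1) (by
      intro z k hk
      rw [bits_tail_length] at hk
      have h2 := enu_sz k
      have h3 := hr z
      have h4 := sz_pair (dq z).1 (dq z).2
      have h5 := length_lt_sz (dq z).1
      have h6 : sz ((dq z).1, (dq z).2) = sz (dq z) := rfl
      have hm : (dq z).1.length + 1 ≤ r.eval (sz z) := by omega
      have h7 : 2 ^ k ≤ r.eval (sz z) := by
        rcases Nat.eq_zero_or_pos (dq z).1.length with h0 | h0
        · rw [h0] at hk
          have : k = 0 := by simpa using hk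
          rw [this]
          simp only [pow_zero]
          omega
        · exact (Nat.pow_le_of_le_log h0.ne' hk).trans (by omega)
      have h8 : k ≤ r.eval (sz z) := (Nat.lt_two_pow_self (n := k)).le.trans h7
      simp only [Polynomial.eval_add, Polynomial.eval_mul, Polynomial.eval_C, Polynomial.eval_one,
        Polynomial.eval_ofNat]
      refine h2.trans (Nat.add_le_add_right (Nat.mul_le_mul h7 (by omega)) 1))
  exact h1.congr fun z => by rw [bits_tail_length, enqA]

/-- The candidates for the number of members. -/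
def cdnA (g : List Bool → ℕ) (z : List Bool) : List ℕ := (enqA z).map (fun u => g (pairBits z u))

theorem cdnA_poly {g : List Bool → ℕ} (hg : Poly g) : Poly (cdnA g) := by
  unfold cdnA
  refine NPC.Poly.map (l := enqA) (F := fun z u => g (pairBits z u)) enqA_poly ?_
  exact hg.comp (Pool.Agent.H622R2.poly_pairBits (NPC.Poly.fst NPC.Poly.id)
    (NPC.Poly.snd NPC.Poly.id))

/-- The first number which is not a candidate. -/
def ncdA (g : List Bool → ℕ) (z : List Bool) : ℕ :=
  ((List.range ((dq z).1.length + 1)).filter (fun c => !decide (c ∈ cdnA g z))).head?.getD 0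

theorem ncdA_poly {g : List Bool → ℕ} (hg : Poly g) : Poly (ncdA g) := by
  unfold ncdA
  refine NPC.Poly.optGetD (NPC.Poly.head? (NPC.Poly.filter
    (l := fun z => List.range ((dq z).1.length + 1)) (p := fun z c => !decide (c ∈ cdnA g z))
    ((UPoly.length (NPC.Poly.fst dq_poly)).add (UPoly.const 1)).range ?_)) (NPC.Poly.const 0)
  exact NPC.Poly.not (NPC.Poly.decide_mem (NPC.Poly.snd NPC.Poly.id)
    ((cdnA_poly hg).comp (NPC.Poly.fst NPC.Poly.id)))

theorem ncdA_spec (g : List Bool → ℕ) (z : List Bool) (h : 1 ≤ (dq z).1.length) :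
    ncdA g z ≤ (dq z).1.length ∧ ncdA g z ∉ cdnA g z := by
  have h1 : ∃ c ∈ List.range ((dq z).1.length + 1), c ∉ cdnA g z := by
    by_contra hcon
    push Not at hcon
    have h2 : (Finset.range ((dq z).1.length + 1)) ⊆ (cdnA g z).toFinset := by
      intro c hc
      exact List.mem_toFinset.2 (hcon c (List.mem_range.2 (Finset.mem_range.1 hc)))
    have h3 := Finset.card_le_card h2
    rw [Finset.card_range] at h3
    have h4 := List.toFinset_card_le (cdnA g z)
    have h5 : (cdnA g z).length = 2 ^ Nat.log 2 (dq z).1.length := by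
      unfold cdnA enqA
      rw [List.length_map, enu_length]
    have h6 : 2 ^ Nat.log 2 (dq z).1.length ≤ (dq z).1.length :=
      Nat.pow_log_le_self 2 (by omega)
    omega
  obtain ⟨c, hc, hc2⟩ := h1
  have h4 : c ∈ (List.range ((dq z).1.length + 1)).filter (fun c => !decide (c ∈ cdnA g z)) :=
    List.mem_filter.2 ⟨hc, by simpa using hc2⟩
  rcases hh : (List.range ((dq z).1.length + 1)).filter (fun c => !decide (c ∈ cdnA g z)) with
    _ | ⟨t, ts⟩
  · rw [hh] at h4
    simp at h4
  · have h5 : t ∈ (List.range ((dq z).1.length + 1)).filter (fun c => !decide (c ∈ cdnA g z)) := by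
      rw [hh]; simp
    obtain ⟨h6, h7⟩ := List.mem_filter.1 h5
    have h8 := List.mem_range.1 h6
    unfold ncdA
    rw [hh]
    exact ⟨by simpa using (show t ≤ (dq z).1.length by omega), by simpa using h7⟩

/-- From few questions to exclusion. -/
theorem count_of_questionsPoly {A : Set (List Bool)} (h : CountQuestionsPoly A) :
    FeasiblePoly (ExcludeCount A) := by
  obtain ⟨O, q, g, b, _, hg, h⟩ := h
  refine ⟨ncdA g, b, polyTime_bits (ncdA_poly (poly_of_polyTime hg)), fun n => ?_⟩
  obtain ⟨m, a, hm1, hm, ha, h1⟩ := h n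
  refine ⟨m, a, hm, ha, fun qs hqs hlen => ?_⟩
  have h2 := h1 qs hqs hlen
  have hdp : (dq (bits (qs, a))).1 = qs := by rw [dq_bits]
  obtain ⟨h3, h4⟩ := ncdA_spec g (bits (qs, a)) (by rw [hdp]; omega)
  rw [hdp] at h3
  refine ⟨by omega, h3, fun h5 => h4 ?_⟩
  rw [← h5, ← h2]
  unfold cdnA enqA
  rw [hdp, hqs]
  exact List.mem_map.2 ⟨_, enu_mem _ _ (enu_adaptive _ _ _ _), rfl⟩

/-! ### The law -/

/-- **The exclusion law for circuits**, for a class with a complete set and with the closure
property `PCl`. -/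
theorem law {K : Set (List Bool) → Prop} {A0 : Set (List Bool)} (hA0 : K A0)
    (hhard : ∀ L', K L' → Reduces L' A0) (hK : ∀ B, K B → PCl K B) : List.TFAE
    [∀ L : Set (List Bool), K L → InPpoly L,
      ∃ A L : Set (List Bool), (∀ L', K L' → Reduces L' A) ∧ InP L ∧ FeasiblePoly (Exclude L A),
      ∃ A : Set (List Bool), (∀ L', K L' → Reduces L' A) ∧ FeasiblePoly (ExcludeCount A),
      ∃ A : Set (List Bool), (∀ L', K L' → Reduces L' A) ∧ CountQuestionsPoly A,
      ∃ A : Set (List Bool), (∀ L', K L' → Reduces L' A) ∧ FeasiblePoly (NotOnly A)] := by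
  tfae_have 1 → 4 := fun h => ⟨A0, hhard, questionsPoly_of_inPpoly (h _ hA0)⟩
  tfae_have 4 → 3 := fun ⟨A, hA, h⟩ => ⟨A, hA, count_of_questionsPoly h⟩
  tfae_have 3 → 2 := fun ⟨A, hA, h⟩ => ⟨A, Lthr, hA, lthr_inP, h.mono exclude_of_count⟩
  tfae_have 1 → 5 := fun h => ⟨A0, hhard, feasiblePoly_notOnly (h _ hA0)⟩
  tfae_have 5 → 2 := fun ⟨A, hA, h⟩ => ⟨A, Lunit, hA, lunit_inP, h.mono exclude_of_notOnly⟩
  tfae_have 2 → 1 := fun ⟨A, L, hA, hL, h⟩ B hB => inPpoly_of_excl (hK B hB) hA hL h
  tfae_finish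

theorem slash_inP_iff (L : Set (List Bool)) : Slash InP L ↔ InPpoly L := by
  constructor
  · rintro ⟨B, α, p, ⟨V, hV, hVB⟩, hα, h⟩
    exact ⟨V, α, p, hV, hα, fun x => (h x).trans (hVB _)⟩
  · rintro ⟨V, α, p, hV, hα, h⟩
    exact ⟨{z | V z = [true]}, α, p, ⟨V, hV, fun x => Iff.rfl⟩, hα, h⟩

/-- `(P/poly)/poly = P/poly`. -/
theorem slash_ppoly {C : Set (List Bool) → Prop} (h : ∀ L, C L → InPpoly L)
    {L : Set (List Bool)} (hL : Slash C L) : InPpoly L := by
  obtain ⟨B, α, p, hB, hα, hLB⟩ := hL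
  obtain ⟨V, β, q, hV, hβ, hVB⟩ := h B hB
  refine ⟨fun z => V (pairBits (pairBits (unpair z).1 (unpair (unpair z).2).1)
    (unpair (unpair z).2).2), fun n => pairBits (α n) (β (2 * n + 1 + (α n).length)),
    Polynomial.C 2 * p + 1 + q.comp (Polynomial.C 2 * Polynomial.X + 1 + p), ?_, fun n => ?_,
    fun x => ?_⟩
  · refine PIso.poly_iff.1 ((PIso.poly_iff.2 hV).comp (Pool.Agent.H622R2.poly_pairBits
      (Pool.Agent.H622R2.poly_pairBits (NPC.Poly.fst poly_unpair)
        (NPC.Poly.fst (poly_unpair.comp (NPC.Poly.snd poly_unpair))))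
      (NPC.Poly.snd (poly_unpair.comp (NPC.Poly.snd poly_unpair)))))
  · rw [pairBits_length]
    have h1 := hα n
    have h2 := hβ (2 * n + 1 + (α n).length)
    have h3 := eval_mono q (show 2 * n + 1 + (α n).length ≤ 2 * n + 1 + p.eval n by omega)
    simp only [Polynomial.eval_add, Polynomial.eval_mul, Polynomial.eval_C, Polynomial.eval_X,
      Polynomial.eval_one, Polynomial.eval_comp]
    omega
  · simp only [unpair_pairBits]
    rw [hLB, hVB, pairBits_length]

theorem slash_of {C : Set (List Bool) → Prop}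
    (hC : ∀ (L : Set (List Bool)) (f : List Bool → List Bool), C L → Poly f → C {x | f x ∈ L})
    {L : Set (List Bool)} (hL : C L) : Slash C L := by
  refine ⟨{z | (unpair z).1 ∈ L}, fun _ => [], 0, hC L (fun z => (unpair z).1) hL
    (NPC.Poly.fst poly_unpair), fun n => by simp, fun x => ?_⟩
  rw [Set.mem_ofPred_eq, unpair_pairBits]

theorem np_preimage (L : Set (List Bool)) (f : List Bool → List Bool) (hL : InNP L)
    (hf : Poly f) : InNP {x | f x ∈ L} := by
  have h := pcl_np hL (fun t => [f t.1]) (fun _ => true)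
    (NPC.Poly.cons (hf.comp (NPC.Poly.fst NPC.Poly.id)) (NPC.Poly.const [])) (NPC.Poly.const true)
  have e : {x : List Bool | f x ∈ L} = {x | ∃ w : List Bool, w.length ≤ x.length ∧
      (fun _ : List Bool × List Bool => true) (x, w) = true ∧
      ∀ y ∈ (fun t : List Bool × List Bool => [f t.1]) (x, w), y ∈ L} := by
    ext x
    rw [Set.mem_ofPred_eq, Set.mem_ofPred_eq]
    constructor
    · intro h
      exact ⟨[], by simp, rfl, fun y hy => by
        rw [List.mem_singleton] at hy
        rw [hy]; exact h⟩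
    · rintro ⟨w, _, _, h⟩
      exact h (f x) (by simp)
  rw [e]
  exact h

/-- **The exclusion law for `NP` and polynomial-size circuits.** -/
theorem law_np : List.TFAE
    [∀ L : Set (List Bool), Slash InNP L → Slash InP L,
      ∀ L : Set (List Bool), InNP L → Slash InP L,
      ∃ A L : Set (List Bool), NPHard A ∧ InP L ∧ FeasiblePoly (Exclude L A),
      ∃ A : Set (List Bool), NPHard A ∧ FeasiblePoly (ExcludeCount A),
      ∃ A : Set (List Bool), NPHard A ∧ CountQuestionsPoly A,
      ∃ A : Set (List Bool), NPHard A ∧ FeasiblePoly (NotOnly A)] := by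
  obtain ⟨hA1, hA2⟩ := Pool.Agent.NPC.H545KS.sat_complete
  have h := law (K := InNP) hA1 hA2 (fun B hB => pcl_np hB)
  have e : (∀ L : Set (List Bool), InNP L → Slash InP L) ↔
      ∀ L : Set (List Bool), InNP L → InPpoly L :=
    forall_congr' fun L => imp_congr_right fun _ => slash_inP_iff L
  tfae_have 1 → 2 := fun h L hL => h L (slash_of np_preimage hL)
  tfae_have 2 → 1 := fun h L hL => (slash_inP_iff L).2 (slash_ppoly (e.1 h) hL)
  tfae_have 2 ↔ 3 := e.trans (h.out 0 1)
  tfae_have 3 ↔ 4 := h.out 1 2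
  tfae_have 4 ↔ 5 := h.out 2 3
  tfae_have 5 ↔ 6 := h.out 3 4
  tfae_finish

/-- **The exclusion law for `NEXP` and polynomial-size circuits.** -/
theorem law_nexp : List.TFAE
    [∀ L : Set (List Bool), InNEXP L → InPpoly L,
      ∃ A L : Set (List Bool), (∀ L', InNEXP L' → Reduces L' A) ∧ InP L ∧
        FeasiblePoly (Exclude L A),
      ∃ A : Set (List Bool), (∀ L', InNEXP L' → Reduces L' A) ∧ FeasiblePoly (ExcludeCount A),
      ∃ A : Set (List Bool), (∀ L', InNEXP L' → Reduces L' A) ∧ CountQuestionsPoly A,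
      ∃ A : Set (List Bool), (∀ L', InNEXP L' → Reduces L' A) ∧ FeasiblePoly (NotOnly A)] :=
  law Pool.Agent.H660R2.NX.inNEXP_KSet (fun _ h => kset_hard h) (fun _ hB => pcl_nexp hB)

end Pool.Agent.TH762.PP
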