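import Pool.Agent.W901.NU.MainC

/-!
# Sets with candidate lists computed with a table are in `P/poly`
-/

set_option autoImplicit false

namespace Pool.Agent.TH762.PP

open Pool.Agent.NPC Pool.Agent.H251R5.PQ Pool.Agent.W901.AT Pool.Agent.H579R2.Spt
open Pool.Agent.W901.NU

/-- **Sets with candidate lists computed with a table are in `P/poly`.** -/
theorem inPpoly_of_tab {A : Set (List Bool)} {τ : Type} [TEnc τ] [TDec τ]
    {E : τ × List (List Bool) → List (List (Option Bool))} (hE : Poly E)
    (tb : ℕ → τ) (pt : Polynomial ℕ) (htb : ∀ s, sz (tb s) ≤ pt.eval s) {D c : ℕ} (hD : 1 ≤ D)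
    (hgood : ∀ (s : ℕ) (z : List (List Bool)), z ≠ [] → sz z ≤ s →
      (∀ y ∈ z, y.length ^ c ≤ z.length) →
        ∃ h ∈ E (tb s, z), good D h (answers A z) = true) : InPpoly A := by
  classical
  obtain ⟨qE, hqE⟩ := hE.sz_le
  set Q1 : Polynomial ℕ := Polynomial.X * (Polynomial.C 4 * Polynomial.X + 2) + 1 with hQ1
  obtain ⟨e, he⟩ := exists_pow_bound (qE.comp (pt.comp Q1 + Q1 + 1))
  obtain ⟨M, hM⟩ := exists_big D e hD
  set Pm : Polynomial ℕ := (Polynomial.X + Polynomial.C (M + 2)) ^ (c + 1) with hPm
  have ePm : ∀ n, Pm.eval n = (n + (M + 2)) ^ (c + 1) := fun n => by simp [hPm]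
  have hPm1 : ∀ n, n + (M + 2) ≤ Pm.eval n := fun n => by
    rw [ePm]
    exact Nat.le_self_pow (by omega) _
  have hcard : ∀ n, (BL n).card ≤ 2 ^ n := fun n => by
    have := card_BL n
    exact_mod_cast this.le
  have hne : ∀ n, (BL n).Nonempty := fun n => by
    rw [← Finset.card_pos]
    have := card_BL n
    have h2 : (0 : ℤ) < 2 ^ n := by positivity
    omega
  have hadv : ∀ n, ∃ adv : List Item, adv.length = 8 * (Pm.eval n) ^ 2 * (n + 1) ∧
      (∀ q ∈ adv, sz q ≤ 2 * (Pm.eval n * (4 * n + 10)) + 3) ∧
      ∀ y ∈ BL n, (dcd (fun z => E (tb (Q1.eval (Pm.eval n)), z)) (Pm.eval n) adv y = true ↔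
        y ∈ A) := by
    intro n
    set m := Pm.eval n with hm
    have hm1 := hPm1 n
    have hmn : n ≤ m := by omega
    have hm2 : 2 ≤ m := by omega
    have eQ1 : Q1.eval m = m * (4 * m + 2) + 1 := by simp [hQ1]
    set S := Q1.eval m with hS
    have hUn : ∀ y ∈ BL n, y.length ≤ n := fun y hy => (mem_BL.1 hy).le
    have hszz : ∀ z : List (List Bool), z.length = m → (∀ y ∈ z, y ∈ BL n) → sz z ≤ S := by
      intro z hz hzU
      have h1 := sz_le_length_mul z (4 * m + 1) (fun y hy => by
        have h2 := sz_listBool_le y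
        have h3 := hUn y (hzU y hy)
        omega)
      rw [hz] at h1
      rw [eQ1]
      exact h1
    set N := (qE.comp (pt.comp Q1 + Q1 + 1)).eval m with hN
    have hNe : N ≤ m ^ e := he m hm2
    have hcand : ∀ z : List (List Bool), z.length = m → (∀ y ∈ z, y ∈ BL n) →
        (E (tb S, z)).length ≤ N ∧ ∃ h ∈ E (tb S, z), good D h (answers A z) = true := by
      intro z hz hzU
      constructor
      · have h1 := hqE (tb S, z)
        have h2 := length_lt_sz (E (tb S, z))
        have h3 : sz (tb S, z) ≤ (pt.comp Q1 + Q1 + 1).eval m := by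
          rw [sz_pair]
          simp only [Polynomial.eval_add, Polynomial.eval_one, Polynomial.eval_comp, ← hS]
          have := hszz z hz hzU
          have := htb S
          omega
        have h4 := eval_mono qE h3
        rw [hN, Polynomial.eval_comp]
        omega
      · have hne : z ≠ [] := by
          rintro rfl
          simp at hz
          omega
        refine hgood S z hne (hszz z hz hzU) fun y hy => ?_
        rw [hz]
        have h3 := hUn y (hzU y hy)
        calc y.length ^ c ≤ (n + (M + 2)) ^ c := Nat.pow_le_pow_left (by omega) c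
          _ ≤ (n + (M + 2)) ^ (c + 1) := Nat.pow_le_pow_right (by omega) (by omega)
          _ = m := by rw [hm, ePm]
    have hN1 : 1 ≤ N := by
      obtain ⟨u, hu⟩ := hne n
      obtain ⟨h1, h, h2, _⟩ := hcand (List.replicate m u) (by simp) (fun y hy => by
        rw [List.eq_of_mem_replicate hy]; exact hu)
      have := List.length_pos_iff.2 (List.ne_nil_of_mem h2)
      omega
    obtain ⟨adv, h1, h2, h3⟩ := exists_advice (BL n) (hne n) (D := D) (m := m)
      (T := 8 * m ^ 2 * (n + 1)) (N := N) (by omega)
      (fun z => E (tb S, z)) A hcand (hM m (by omega) N hN1 hNe) (exp_cond (by omega) (hcard n))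
    refine ⟨adv, h1, fun q hq => ?_, h3⟩
    obtain ⟨g1, g2, g3⟩ := h2 q hq
    exact sz_item q g1 (fun a ha => hUn _ (g2 a ha)) (fun a ha => hUn _ (g3 a ha))
  choose adv h1 h2 h3 using hadv
  set V : List Bool → List Bool := fun z =>
    [((unbits (τ × List Item) (unpair z).2).map
      (fun a => dcd (fun y => E (a.1, y)) (Pm.eval (unpair z).1.length) a.2
        (unpair z).1)).getD false] with hV
  refine ⟨V, fun n => bits ((tb (Q1.eval (Pm.eval n)), adv n) : τ × List Item),
    pt.comp (Q1.comp Pm) +
      (Polynomial.C 8 * Pm ^ 2 * (Polynomial.X + 1) *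
        (2 * (Pm * (Polynomial.C 4 * Polynomial.X + 10)) + 3 + 1) + 1) + 1, ?_, fun n => ?_,
    fun x => ?_⟩
  · refine polyTime_of_poly (g := fun z => ((unbits (τ × List Item) (unpair z).2).map
      (fun a => dcd (fun y => E (a.1, y)) (Pm.eval (unpair z).1.length) a.2
        (unpair z).1)).getD false) ?_
    have e1 : Poly (fun z : List Bool => (unpair z).1) := NPC.Poly.fst poly_unpair
    have e2 : Poly (fun z : List Bool => (unpair z).2) := NPC.Poly.snd poly_unpair
    refine NPC.Poly.optGetD (NPC.Poly.optMap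
      (o := fun z : List Bool => unbits (τ × List Item) (unpair z).2)
      (f := fun z a => dcd (fun y => E (a.1, y)) (Pm.eval (unpair z).1.length) a.2 (unpair z).1)
      (poly_unbits.comp e2) ?_) (NPC.Poly.const false)
    have f1 : Poly (fun r : List Bool × (τ × List Item) => r.1) :=
      NPC.Poly.fst NPC.Poly.id
    have f3 : Poly (fun r : List Bool × (τ × List Item) => r.2.2) :=
      NPC.Poly.snd (NPC.Poly.snd NPC.Poly.id)
    have f4' : Poly (fun r : (List Bool × (τ × List Item)) × List (List Bool) =>
        (r.1.2.1, r.2)) :=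
      NPC.Poly.pair (NPC.Poly.fst (NPC.Poly.snd (NPC.Poly.fst NPC.Poly.id)))
        (NPC.Poly.snd NPC.Poly.id)
    have f4 := hE.comp f4'
    have f5 : UPoly (fun r : List Bool × (τ × List Item) =>
        Pm.eval (unpair r.1).1.length) := ((UPoly.length e1).eval Pm).comp f1
    have f6 : Poly (fun r : List Bool × (τ × List Item) => (unpair r.1).1) :=
      e1.comp f1
    have f7 := dcd_poly (α := List Bool × (τ × List Item))
      (E := fun r y => E (r.2.1, y)) f4 f5 f3 f6
    exact f7
  · rw [bits_length, sz_pair]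
    have e1 := htb (Q1.eval (Pm.eval n))
    have e2 := sz_le_length_mul (adv n) _ (h2 n)
    rw [h1 n] at e2
    simp only [Polynomial.eval_add, Polynomial.eval_mul, Polynomial.eval_one, Polynomial.eval_C,
      Polynomial.eval_ofNat, Polynomial.eval_comp, Polynomial.eval_X, Polynomial.eval_pow]
    omega
  · rw [hV]
    simp only [unpair_pairBits, unbits_bits, Option.map_some, Option.getD_some, List.cons.injEq,
      and_true]
    exact (h3 x.length x (mem_BL.2 rfl)).symm

end Pool.Agent.TH762.PP
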